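import Pool.Agent.H167R2.KLProc

/-!
# One step of the freezing process, with the frozen coordinates kept

This is `H167KL.Sys.step` with two more conclusions: coordinates frozen in `x` keep their value, and
the alive set shrinks.  The protected rows `I0` may be replaced between two steps.
-/

set_option autoImplicit false

namespace Pool.Agent.L0h27.LP

open Finset Real H167BJ H167BK H167KL

variable {I J T : Type*} [Fintype I] [Fintype J]

/-- One step of the process on the set of alive elements. -/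
theorem step' (P : Sys I J T) (x : J → ℝ) (hx : P.Inv x) (F' : Finset J) (hn : 0 < F'.card)
    (hF'A : F' ⊆ H167FK.Sys.alive x)
    (hcl : ∀ i, P.g0 < P.mass (H167FK.Sys.alive x) i → (∃ v ∈ F', P.a i v ≠ 0) →
      ∀ v ∈ H167FK.Sys.alive x, P.a i v ≠ 0 → v ∈ F')
    (hI0 : 20 * (P.I0.card : ℝ) ≤ F'.card)
    (hgood : ∀ y : J → ℝ, (∀ j, |y j| ≤ 1) → P.f (H167FK.Sys.alive x) y ≤ 2 * P.N →
      100 * ∑ i ∈ P.R (H167FK.Sys.alive x) F', P.W (H167FK.Sys.alive x) y i
        / P.Yl (P.lev (H167FK.Sys.alive x) i) ≤ 2 * (F'.card : ℝ) ∧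
      ∀ Tt : Finset I, (∀ i ∈ Tt, i ∈ P.R (H167FK.Sys.alive x) F' ∧
        P.V (P.lev (H167FK.Sys.alive x) i) (H167FK.Sys.alive x) i y
          = P.Bd (P.lev (H167FK.Sys.alive x) i) i) → 20 * (Tt.card : ℝ) ≤ F'.card)
    (hW : ∀ i ∈ P.R (H167FK.Sys.alive x) F', ∃ τ ∈ P.S,
      0 < P.b τ i (P.lev (H167FK.Sys.alive x) i)) :
    ∃ y : J → ℝ, P.Inv y ∧ (H167FK.Sys.alive y).card < (H167FK.Sys.alive x).card ∧
      H167FK.Sys.alive y ⊆ H167FK.Sys.alive x ∧ (∀ j ∉ H167FK.Sys.alive x, y j = x j) := by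
  classical
  set A : Finset J := H167FK.Sys.alive x with hA
  have hxA : ∀ j, j ∉ A → |x j| = 1 := fun j hj => H167FK.Sys.abs_eq_one hx.box hj
  have hxF : x ∈ P.Fs A F' x := ⟨fun j _ => rfl, hx.box, hx.zero, hx.bigz, hx.medb⟩
  obtain ⟨y, hyF, hymin⟩ := (P.isCompact_Fs A F' x).exists_isMinOn ⟨x, hxF⟩
    (P.continuous_f A).continuousOn
  have hfy : P.f A y ≤ P.f A x := hymin hxF
  have hfy2 : P.f A y ≤ 2 * P.N := hfy.trans hx.pot
  -- some coordinate gets frozen
  have hfrozen : ∃ j ∈ F', |y j| = 1 := by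
    by_contra hcon
    push Not at hcon
    have hlt : ∀ j ∈ F', |y j| < 1 := fun j hj => lt_of_le_of_ne (hyF.2.1 j) (hcon j hj)
    obtain ⟨hg1, hg2⟩ := hgood y hyF.2.1 hfy2
    exact P.no_min A F' x y hyF hlt hn hF'A hcl hI0 hg1
      (hg2 _ (fun i hi => Finset.mem_filter.mp hi)) hW
      (fun z hz => hymin hz)
  have hyA : ∀ j ∉ A, |y j| = 1 := fun j hj => by
    rw [hyF.1 j (fun h => hj (hF'A h))]; exact hxA j hj
  have hsub : H167FK.Sys.alive y ⊆ A := by
    intro j hj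
    by_contra hjA
    unfold H167FK.Sys.alive at hj
    rw [Finset.mem_filter] at hj
    have := hyA j hjA
    linarith [hj.2]
  have hy1 : ∀ j ∉ H167FK.Sys.alive y, |y j| = 1 := fun j hj => H167FK.Sys.abs_eq_one hyF.2.1 hj
  set A' : Finset J := H167FK.Sys.alive y with hA'
  have hxy : ∀ j ∉ A, y j = x j := fun j hj => hyF.1 j (fun h => hj (hF'A h))
  have hbig1 := hyF.2.2.2.1
  have hmed1 := hyF.2.2.2.2
  have hbigsub : ∀ i ∈ P.big A', i ∈ P.big A := by
    intro i hi
    obtain ⟨h1, h2, h3⟩ := P.mem_big.mp hi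
    exact P.mem_big.mpr ⟨h1, h2.trans_le (P.mass_mono hsub i), h3.trans_le (P.En_mono hsub i)⟩
  refine ⟨y, ⟨hyF.2.1, ?_, hyF.2.2.1, fun i hi => hbig1 i (hbigsub i hi), ?_, ?_, ?_⟩, ?_,
    hsub, hxy⟩
  · intro j hj
    have h1 := hx.froz j hj
    have h2 : j ∉ A := by
      rw [hA]
      unfold H167FK.Sys.alive
      rw [Finset.mem_filter, h1, hj]
      simp
    rw [hxy j h2, h1]
  · -- medium rows
    intro i hi
    rw [← hA'] at hi ⊢
    obtain ⟨hi1, hi2, hi3, hi4⟩ := P.mem_med.mp hi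
    by_cases hb : i ∈ P.big A
    · have h1 := P.reset_zero hyF.2.1 (hbig1 i hb) (P.En_le_l0 hi1 hi3) (P.lev A' i)
        (P.l0_le_lev hi1 hi3) le_rfl
      have h2 := P.half_nonneg (P.lev A' i)
      linarith
    · by_cases hm : i ∈ P.med A
      · have h1 := (P.V_shrink (P.lev A i) hsub i hyF.2.1).trans (hmed1 i hm)
        rcases (P.lev_mono hsub i).eq_or_lt with h | h
        · rw [← h]; exact h1
        · have h2 := P.reset_lt hyF.2.1 h1 (P.lev A' i) h le_rfl
          have h3 := P.half_nonneg (P.lev A' i)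
          linarith
      · exact absurd hi (P.sml_mono hsub hb hm).2
  · -- small rows
    intro i hi1 hib him
    rw [← hA'] at him hib ⊢
    by_cases hb : i ∈ P.big A
    · exact P.sml_of_zero hi1 hib him hyF.2.1 (hbig1 i hb)
    · by_cases hm : i ∈ P.med A
      · have h1 := (P.V_shrink (P.lev A i) hsub i hyF.2.1).trans (hmed1 i hm)
        exact P.sml_of_V hi1 hib him hyF.2.1 (P.mem_med.mp hm).2.2.2 h1
      · exact (P.Bq_change hsub i hyF.2.1 hxy).trans (hx.smlb i hi1 hb hm)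
  · -- potential
    refine le_trans ?_ hfy2
    unfold H167KL.Sys.f
    rw [← hA']
    have h1 : ∑ τ ∈ P.S, P.wt τ * exp (P.Th A' τ y) ≤ ∑ τ ∈ P.S, P.wt τ * exp (P.Th A τ y) := by
      refine Finset.sum_le_sum fun τ hτ => mul_le_mul_of_nonneg_left ?_ (P.hwt τ hτ).le
      apply exp_le_exp.mpr
      unfold H167KL.Sys.Th
      refine Finset.sum_le_sum fun i _ => Finset.sum_le_sum fun l _ =>
        mul_le_mul_of_nonneg_left ?_ (P.hb0 τ hτ i l)
      exact P.th_mono hsub i l hyF.2.1 hy1 (fun h => hbig1 i h) (fun h => hmed1 i h)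
    linarith
  · obtain ⟨j, hjA, hj1⟩ := hfrozen
    apply Finset.card_lt_card
    refine ⟨hsub, fun hcon => ?_⟩
    have := hcon (hF'A hjA)
    unfold H167FK.Sys.alive at this
    rw [Finset.mem_filter] at this
    linarith [this.2]

/-- Replace the protected rows. -/
def withI0 (P : Sys I J T) (H : Finset I) : Sys I J T := { P with I0 := H }

/-- The invariant after replacing the protected rows. -/
theorem inv_withI0 (P : Sys I J T) (H H' : Finset I) {x : J → ℝ} (hx : (withI0 P H).Inv x)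
    (h0 : ∀ i ∈ H', P.A i x = 0) : (withI0 P H').Inv x :=
  ⟨hx.box, hx.froz, h0, hx.bigz, hx.medb, hx.smlb, hx.pot⟩

end Pool.Agent.L0h27.LP
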