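import Pool.Agent.N243.Phase
import Pool.Agent.L0h27.LP.Step

/-!
# A block with rows protected by their alive mass
-/

set_option autoImplicit false

namespace Pool.Agent.L0h27.LP

open Finset Real H167BJ H167BK H167KL Pool.Agent.N243

variable {I J : Type*} [Fintype I] [Fintype J]

/-- The state of a protected row. -/
def Kst (P : Sys I J J) (Hs : Finset I) (Γ : I → ℝ) (x : J → ℝ) : Prop :=
  ∀ i ∈ Hs, P.A i x = 0 ∨
    |P.Bq (H167FK.Sys.alive x) i x| + 2 * P.mass (H167FK.Sys.alive x) i ≤ 4 * Γ i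

theorem abs_A_le (P : Sys I J J) (F : Finset J) (i : I) {y : J → ℝ} (hy : ∀ j, |y j| ≤ 1) :
    |P.A i y| ≤ |P.Bq F i y| + 2 * P.mass F i := by
  have h4 : P.A i y = P.Bq F i y + ∑ v ∈ F, P.a i v * (y v - P.x0 v) := by
    unfold Sys.Bq; ring
  have h5 := P.abs_sum_le F (P.a i) hy
  rw [h4]
  exact (abs_add_le _ _).trans (add_le_add le_rfl h5)

theorem Kst_step (P : Sys I J J) (Hs : Finset I) (Γ : I → ℝ) {x y : J → ℝ}
    (hK : Kst P Hs Γ x) (hx : ∀ j, |x j| ≤ 1) (hy : ∀ j, |y j| ≤ 1) (H : Finset I)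
    (hz : ∀ i ∈ H, P.A i y = 0)
    (hm : ∀ i ∈ Hs, i ∉ H → P.mass (H167FK.Sys.alive x) i ≤ Γ i)
    (hsub : H167FK.Sys.alive y ⊆ H167FK.Sys.alive x)
    (hxy : ∀ j ∉ H167FK.Sys.alive x, y j = x j) : Kst P Hs Γ y := by
  intro i hi
  by_cases hiH : i ∈ H
  · exact Or.inl (hz i hiH)
  · right
    refine (P.Bq_change hsub i hy hxy).trans ?_
    rcases hK i hi with h | h
    · have h3 := P.abs_sum_le (H167FK.Sys.alive x) (P.a i) hx
      have h4 : |P.Bq (H167FK.Sys.alive x) i x| ≤ 2 * P.mass (H167FK.Sys.alive x) i := by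
        unfold H167KL.Sys.Bq H167KL.Sys.mass
        rw [h, zero_sub, abs_neg]
        exact h3
      have h5 := hm i hi hiH
      linarith
    · exact h

/-- **Block lemma with protected rows.** -/
theorem block' (Q : Blk I J) (Hv : Finset J → Finset I)
    (hmono : ∀ F F' : Finset J, F' ⊆ F → Hv F' ⊆ Hv F)
    (hcard : ∀ F : Finset J, 20 * ((Hv F).card : ℝ) ≤ F.card)
    (Hs : Finset I) (Γ : I → ℝ) (hΓ : ∀ F : Finset J, ∀ i ∈ Hs, i ∉ Hv F →
      ∑ j ∈ F, |Q.a i j| ≤ Γ i) (hΓ0 : ∀ i ∈ Hs, 0 ≤ Γ i) :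
    ∃ x : J → ℝ, (∀ j, |x j| ≤ 1) ∧
    (∀ i ∈ Q.I1, |∑ j, Q.a i j * (x j - Q.x0 j)| ≤ Q.C1 * Q.τ i) ∧
    (∀ i ∈ Hs, |∑ j, Q.a i j * (x j - Q.x0 j)| ≤ 4 * Γ i) ∧
    ((H167FK.Sys.alive x).card : ℝ) ≤ 2 * (Fintype.card J : ℝ) * exp (-Q.M) := by
  classical
  have hM := Q.hM
  have hA0 : ∀ i, Q.sys.A i Q.sys.x0 = 0 := fun i => by unfold Sys.A; simp
  have hex : ∃ k : ℕ, ∃ x : J → ℝ,
      ((withI0 Q.sys (Hv (H167FK.Sys.alive x))).Inv x ∧ Kst Q.sys Hs Γ x) ∧
      (H167FK.Sys.alive x).card = k := by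
    refine ⟨_, Q.sys.x0, ⟨inv_withI0 Q.sys Q.sys.I0 _ Q.sys.inv_base fun i _ => hA0 i,
      fun i _ => Or.inl (hA0 i)⟩, rfl⟩
  obtain ⟨x, ⟨hx, hK⟩, hxk⟩ := Nat.find_spec hex
  have hAx : ∀ i, Q.sys.A i x = ∑ j, Q.a i j * (x j - Q.x0 j) := fun i => rfl
  refine ⟨x, hx.box, fun i hi => ?_, fun i hi => ?_, ?_⟩
  · rw [← hAx]
    have h1 := hx.rows' (i := i) hi
    have h2 : (withI0 Q.sys (Hv (H167FK.Sys.alive x))).g0 = 0 := rfl
    rw [h2, mul_zero, add_zero] at h1
    exact h1.trans (Q.Bd_le hi)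
  · rw [← hAx]
    rcases hK i hi with h | h
    · rw [h, abs_zero]
      have := hΓ0 i hi
      linarith
    · exact (abs_A_le Q.sys _ i hx.box).trans h
  · by_contra hcon
    push Not at hcon
    set F := H167FK.Sys.alive x with hF
    have hexp : 0 < exp (-Q.M) := exp_pos _
    have hJn : (0 : ℝ) ≤ 2 * (Fintype.card J : ℝ) * exp (-Q.M) := by positivity
    have hn : 0 < F.card := by
      have : (0 : ℝ) < F.card := by linarith
      exact_mod_cast this
    have hnR : (0 : ℝ) < F.card := by exact_mod_cast hn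
    obtain ⟨y, hy, hyc, hsub, hxy⟩ := step' (withI0 Q.sys (Hv F)) x hx F hn
      (Finset.Subset.refl _) (fun i _ _ v hv _ => hv) (hcard F)
      (by
        intro y hy1 hy2
        have hg := Q.good F (by linarith) y hy1 hy2
        constructor
        · have h1 : ∑ i ∈ Q.sys.R F F, Q.h ^ 2 / 16 * (Q.sys.W F y i / Q.sys.Yl (Q.sys.lev F i))
              ≤ ∑ i ∈ Q.sys.med F, ek Q.t (Q.sys.lev F i)
                / (16 * θk Q.t Q.h (Q.sys.lev F i) ^ 2) * Q.sys.W F y i := by
            refine (Finset.sum_le_sum_of_subset_of_nonneg (f := fun i =>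
              Q.h ^ 2 / 16 * (Q.sys.W F y i / Q.sys.Yl (Q.sys.lev F i)))
              (Finset.filter_subset _ _) (fun i _ _ => ?_)).trans
              (Finset.sum_le_sum fun i _ => ?_)
            · have h2 := Q.sys.W_pos F y i
              have h3 := Q.sys.Y_pos (Q.sys.lev F i)
              positivity
            · have h2 := Q.sys.W_pos F y i
              have h3 : 0 < wk Q.t Q.h (Q.sys.lev F i) := wk_pos Q.ht Q.h_ge _
              have h4 : wk Q.t Q.h (Q.sys.lev F i) ≤ Q.sys.Yl (Q.sys.lev F i) := wk_le_yk _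
              have hθ := θk_pos Q.ht Q.h_ge (Q.sys.lev F i)
              have he := ek_pos Q.ht (Q.sys.lev F i)
              have hh := Q.h_ge
              have h5 : Q.sys.W F y i / Q.sys.Yl (Q.sys.lev F i)
                  ≤ Q.sys.W F y i / wk Q.t Q.h (Q.sys.lev F i) :=
                div_le_div_of_nonneg_left h2.le h3 h4
              calc Q.h ^ 2 / 16 * (Q.sys.W F y i / Q.sys.Yl (Q.sys.lev F i))
                  ≤ Q.h ^ 2 / 16 * (Q.sys.W F y i / wk Q.t Q.h (Q.sys.lev F i)) :=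
                    mul_le_mul_of_nonneg_left h5 (by positivity)
                _ = _ := by
                    unfold wk
                    field_simp
          rw [← Finset.mul_sum] at h1
          have h2 := h1.trans hg
          rw [Q.h_sq] at h2
          have h3 : Q.M * (60 * ∑ i ∈ Q.sys.R F F, Q.sys.W F y i / Q.sys.Yl (Q.sys.lev F i))
              ≤ Q.M * (101 / 100 * F.card) := by linarith
          have h4 := le_of_mul_le_mul_left h3 (by linarith)
          show 100 * ∑ i ∈ Q.sys.R F F, Q.sys.W F y i / Q.sys.Yl (Q.sys.lev F i)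
            ≤ 2 * (F.card : ℝ)
          linarith
        · intro Tt hTt
          have h1 : ∑ i ∈ Tt, 30 * Q.M
              ≤ ∑ i ∈ Q.sys.med F, ek Q.t (Q.sys.lev F i)
                / (16 * θk Q.t Q.h (Q.sys.lev F i) ^ 2) * Q.sys.W F y i := by
            have hsub : Tt ⊆ Q.sys.med F := fun i hi =>
              Finset.filter_subset _ _ (hTt i hi).1
            refine (Finset.sum_le_sum fun i hi => ?_).trans
              (Finset.sum_le_sum_of_subset_of_nonneg hsub (f := fun i =>
              ek Q.t (Q.sys.lev F i) / (16 * θk Q.t Q.h (Q.sys.lev F i) ^ 2) * Q.sys.W F y i)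
              (fun i _ _ => ?_))
            · have h2 := Q.sys.tight_le (Q.sys.lev F i) i hy1 (hTt i hi).2
              have h3 : Q.sys.W F y i = wk Q.t Q.h (Q.sys.lev F i)
                  * Q.sys.φ (Q.sys.lev F i) F i y := rfl
              have hθ := θk_pos Q.ht Q.h_ge (Q.sys.lev F i)
              have he := ek_pos Q.ht (Q.sys.lev F i)
              have h4 : ek Q.t (Q.sys.lev F i) / (16 * θk Q.t Q.h (Q.sys.lev F i) ^ 2)
                  * wk Q.t Q.h (Q.sys.lev F i) = 60 * Q.M := by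
                unfold wk
                rw [Q.h_sq]
                field_simp
                norm_num
              rw [h3, ← mul_assoc, h4]
              nlinarith
            · have h2 := Q.sys.W_pos F y i
              have hθ := θk_pos Q.ht Q.h_ge (Q.sys.lev F i)
              have he := ek_pos Q.ht (Q.sys.lev F i)
              positivity
          rw [Finset.sum_const, nsmul_eq_mul] at h1
          have h2 := h1.trans hg
          have h3 : Q.M * (20 * (Tt.card : ℝ)) ≤ Q.M * (F.card : ℝ) := by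
            have h4 : 0 ≤ Q.M * (F.card : ℝ) := by positivity
            linarith
          exact le_of_mul_le_mul_left h3 (by positivity))
      (by
        intro i hi
        obtain ⟨v, hv, hv2⟩ := (Finset.mem_filter.mp hi).2
        refine ⟨v, Finset.mem_univ v, ?_⟩
        show 0 < Q.sys.b v i (Q.sys.lev F i)
        rw [Q.b_eq]
        have hθ := θk_pos Q.ht Q.h_ge (Q.sys.lev F i)
        have h1 : 0 < Q.sys.sm (Q.sys.lev F i) i v ^ 2 := by
          have : Q.sys.sm (Q.sys.lev F i) i v ≠ 0 := hv2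
          positivity
        positivity)
    refine Nat.find_min hex (m := (H167FK.Sys.alive y).card) (by rw [← hxk]; exact hyc)
      ⟨y, ⟨inv_withI0 Q.sys (Hv F) _ hy fun i hi => hy.zero i (hmono F _ hsub hi), ?_⟩, rfl⟩
    exact Kst_step Q.sys Hs Γ hK hx.box hy.box (Hv F) (fun i hi => hy.zero i hi)
      (fun i hi hiH => hΓ F i hi hiH) hsub hxy

end Pool.Agent.L0h27.LP
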