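import Pool.Agent.L0h27.Kom.StageB
import Pool.Agent.L0h27.LP.Block

/-!
# Simultaneous signings: rows with `ℓ¹` columns and rows with `ℓ²` columns
-/

set_option autoImplicit false

namespace Pool.Agent.L0h27.LP

open Finset Real Pool.Agent.N243 Pool.Agent.L0h27.Kom

open H167FK.Sys (alive)

/-- The rows of large mass in `F`. -/
noncomputable def heavy {I J : Type} [Fintype I] (w : I → J → ℝ) (F : Finset J) : Finset I := by
  classical
  exact Finset.univ.filter (fun i => 20 < ∑ j ∈ F, |w i j|)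

theorem mem_heavy {I J : Type} [Fintype I] {w : I → J → ℝ} {F : Finset J} {i : I} :
    i ∈ heavy w F ↔ 20 < ∑ j ∈ F, |w i j| := by
  unfold heavy
  simp

theorem heavy_mono {I J : Type} [Fintype I] (w : I → J → ℝ) {F F' : Finset J} (h : F' ⊆ F) :
    heavy w F' ⊆ heavy w F := by
  intro i hi
  rw [mem_heavy] at hi ⊢
  exact hi.trans_le (Finset.sum_le_sum_of_subset_of_nonneg h fun _ _ _ => abs_nonneg _)

theorem card_heavy' {I J : Type} [Fintype I] (w : I → J → ℝ) (hw : ∀ j, ∑ i, |w i j| ≤ 1)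
    (F : Finset J) : 20 * ((heavy w F).card : ℝ) ≤ F.card := by
  have h1 : ((heavy w F).card : ℝ) * 20 ≤ ∑ i ∈ heavy w F, ∑ j ∈ F, |w i j| := by
    rw [← nsmul_eq_mul]
    apply Finset.card_nsmul_le_sum
    intro i hi
    exact (mem_heavy.mp hi).le
  have h2 : ∑ i ∈ heavy w F, ∑ j ∈ F, |w i j| ≤ F.card := by
    calc _ ≤ ∑ i, ∑ j ∈ F, |w i j| :=
          Finset.sum_le_univ_sum_of_nonneg fun i => Finset.sum_nonneg fun j _ => abs_nonneg _
      _ = ∑ j ∈ F, ∑ i, |w i j| := Finset.sum_comm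
      _ ≤ ∑ _j ∈ F, (1:ℝ) := Finset.sum_le_sum fun j _ => hw j
      _ = F.card := by rw [Finset.sum_const, nsmul_eq_mul, mul_one]
  linarith

theorem dl_two {t : ℝ} (ht : 1 ≤ t) : dl (2 * t) ≤ 2 * dl t := by
  have hlog := Real.log_nonneg ht
  have hst : 0 < Real.sqrt t := Real.sqrt_pos.2 (by linarith)
  unfold dl
  rw [Real.log_mul (by norm_num) (by linarith), Real.sqrt_mul (by norm_num), ← mul_div_assoc,
    div_le_div_iff₀ (by positivity) (by positivity)]
  have h1 : (1 + (Real.log 2 + Real.log t)) ^ (3 / 2 : ℝ) ≤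
      2 * Real.sqrt 2 * (1 + Real.log t) ^ (3 / 2 : ℝ) := by
    have hl2 := Real.log_two_lt_d9
    have hl2' := Real.log_two_gt_d9
    calc (1 + (Real.log 2 + Real.log t)) ^ (3 / 2 : ℝ) ≤ (2 * (1 + Real.log t)) ^ (3 / 2 : ℝ) :=
          Real.rpow_le_rpow (by linarith) (by linarith) (by norm_num)
      _ = 2 ^ (3 / 2 : ℝ) * (1 + Real.log t) ^ (3 / 2 : ℝ) :=
          Real.mul_rpow (by norm_num) (by linarith)
      _ = _ := by
          congr 1
          rw [show (3 / 2 : ℝ) = 1 + 1 / 2 by norm_num, Real.rpow_add (by norm_num),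
            Real.rpow_one, ← Real.sqrt_eq_rpow]
  calc (1 + (Real.log 2 + Real.log t)) ^ (3 / 2 : ℝ) * Real.sqrt t
      ≤ (2 * Real.sqrt 2 * (1 + Real.log t) ^ (3 / 2 : ℝ)) * Real.sqrt t :=
        mul_le_mul_of_nonneg_right h1 hst.le
    _ = _ := by ring

theorem Ef_two {t : ℝ} (ht : 1 ≤ t) {x : ℝ} (hx : 0 ≤ x) :
    Ef (dl (2 * t)) x ≤ 2 * Ef (dl t) x := by
  have h1 := dl_two ht
  unfold Ef
  rw [mul_min_of_nonneg _ _ (by norm_num)]
  apply min_le_min
  · have : 0 ≤ (1 + x) ^ (1 / 4 : ℝ) := by positivity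
    linarith
  · have := mul_le_mul_of_nonneg_right h1 (Real.sqrt_nonneg x)
    linarith

/-- **One signing for rows with `ℓ¹` columns and rows with `ℓ²` columns.** -/
theorem core {I₁ I₂ J : Type} [Fintype I₁] [Fintype I₂] [Fintype J] (w : I₁ → J → ℝ)
    (a : I₂ → J → ℝ) (t : ℝ) (ht : 1 ≤ t) (hw : ∀ j, ∑ i, |w i j| ≤ 1)
    (a1 : ∀ i j, |a i j| ≤ 1) (col : ∀ j, ∑ i, a i j ^ 2 ≤ t) (x₀ : J → ℝ)
    (hx₀ : ∀ j, |x₀ j| ≤ 1) (N : ℕ) (hN : (alive x₀ : Finset J).card ≤ N) :
    ∃ x : J → ℝ, (∀ j, |x j| = 1) ∧ (∀ j, |x₀ j| = 1 → x j = x₀ j) ∧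
      (∀ i, |∑ j, w i j * (x j - x₀ j)| ≤ 80) ∧
      (∀ i, |∑ j, a i j * (x j - x₀ j)| ≤
        123600 * Real.sqrt t * Ef (dl t) (Real.log N)) := by
  classical
  have ht2 : 1 ≤ 2 * t := by linarith
  have hd := dl_pos ht2
  have hlog : 0 ≤ Real.log N := Real.log_natCast_nonneg N
  have hΛ := Lam_ge (dl (2 * t))
  set b : ℝ := max (Lam (dl (2 * t))) (Real.log N) with hb
  have hb1 : 1 ≤ b := hΛ.trans (le_max_left _ _)
  set s : ℝ := (960 * (b + 2)) ^ (1 / 4 : ℝ) with hs
  have hs4 : s ^ 4 = 960 * (b + 2) := by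
    rw [hs, ← Real.rpow_natCast, ← Real.rpow_mul (by linarith)]
    norm_num
  have hs1 : 1 ≤ s := Real.one_le_rpow (by linarith) (by norm_num)
  set A := (alive x₀ : Finset J) with hA
  have hw1 : ∀ i j, |w i j| ≤ 1 := fun i j =>
    (Finset.single_le_sum (f := fun i => |w i j|) (fun i _ => abs_nonneg _)
      (Finset.mem_univ i)).trans (hw j)
  let Q : Blk (I₁ ⊕ I₂) A :=
    { a := fun i j => Sum.elim (fun i => w i j) (fun i => a i j) i
      I0 := ∅
      I1 := Finset.univ.map Function.Embedding.inr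
      t := 2 * t
      ht := ht2
      M := b + 2
      hM := by linarith
      a1 := fun i j => by
        rcases i with i | i
        · exact hw1 i j
        · exact a1 i j
      col := fun j => by
        rw [Fintype.sum_sum_type]
        simp only [Sum.elim_inl, Sum.elim_inr]
        have h1 : ∑ i, w i (j : J) ^ 2 ≤ ∑ i, |w i (j : J)| := by
          refine Finset.sum_le_sum fun i _ => ?_
          rw [← sq_abs]
          nlinarith [abs_nonneg (w i (j : J)), hw1 i (j : J)]
        have h2 := hw (j : J)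
        have h3 := col (j : J)
        linarith
      s := s
      hs := hs1
      hsM := hs4.ge
      τ := fun _ => 1
      τ_pos := fun _ _ => one_pos
      τ_le := fun _ _ => le_rfl
      τ_mass := fun i hi => Or.inl rfl
      x0 := fun j => x₀ j
      hx0 := fun j => hx₀ j }
  have hwA : ∀ j : A, ∑ i, |w i (j : J)| ≤ 1 := fun j => hw j
  obtain ⟨z, hz1, hz2, hz3, hz4⟩ := block' Q
    (fun F => (heavy (fun i (j : A) => w i (j : J)) F).map Function.Embedding.inl)
    (fun F F' h => Finset.map_subset_map.mpr (heavy_mono _ h))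
    (fun F => by
      rw [Finset.card_map]
      exact card_heavy' _ hwA F)
    (Finset.univ.map Function.Embedding.inl) (fun _ => 20)
    (fun F i hi hiH => by
      rw [Finset.mem_map] at hi
      obtain ⟨i', -, rfl⟩ := hi
      have h1 : i' ∉ heavy (fun i (j : A) => w i (j : J)) F := by
        intro h
        exact hiH (Finset.mem_map.mpr ⟨i', h, rfl⟩)
      rw [mem_heavy, not_lt] at h1
      exact h1)
    (fun _ _ => by norm_num)
  have hcard : ((alive z : Finset A).card : ℝ) < 1 := by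
    refine lt_of_le_of_lt hz4 ?_
    have h1 : (Fintype.card A : ℝ) ≤ N := by
      rw [Fintype.card_coe]
      exact_mod_cast hN
    have h2 : (N : ℝ) ≤ Real.exp b := by
      rcases Nat.eq_zero_or_pos N with h0 | h0
      · rw [h0, Nat.cast_zero]; exact (Real.exp_pos _).le
      · have hN' : (0:ℝ) < N := by exact_mod_cast h0
        calc (N : ℝ) = Real.exp (Real.log N) := (Real.exp_log hN').symm
          _ ≤ Real.exp b := Real.exp_le_exp.2 (le_max_right _ _)
    have h3 : Real.exp b * Real.exp (-(b + 2)) = Real.exp (-2) := by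
      rw [← Real.exp_add]; congr 1; ring
    have h4 := exp_neg_two
    have h5 := Real.exp_pos (-(b + 2))
    have h6 : (Fintype.card A : ℝ) * Real.exp (-(b + 2)) ≤ Real.exp b * Real.exp (-(b + 2)) :=
      mul_le_mul_of_nonneg_right (h1.trans h2) h5.le
    show 2 * (Fintype.card A : ℝ) * Real.exp (-(b + 2)) < 1
    rw [h3] at h6
    linarith
  have hz5 := all_one hz1 hcard
  let x : J → ℝ := fun j => if h : j ∈ A then z ⟨j, h⟩ else x₀ j
  have hsum : ∀ c : J → ℝ, ∑ j, c j * (x j - x₀ j) = ∑ j : A, c j * (z j - x₀ j) := by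
    intro c
    have h1 : ∑ j : A, c j * (z j - x₀ j) = ∑ j : A, c j * (x j - x₀ j) := by
      refine Finset.sum_congr rfl fun j _ => ?_
      have h2 : x j = z j := by
        simp only [x]
        rw [dif_pos j.2]
      rw [h2]
    rw [h1, Finset.sum_coe_sort A (fun j => c j * (x j - x₀ j))]
    symm
    refine Finset.sum_subset (Finset.subset_univ _) fun j _ hj => ?_
    simp only [x]
    rw [dif_neg hj, sub_self, mul_zero]
  refine ⟨x, fun j => ?_, fun j hj => ?_, fun i => ?_, fun i => ?_⟩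
  · simp only [x]
    split_ifs with h
    · exact hz5 _
    · have h1 : ¬ |x₀ j| < 1 := fun h2 => h (by rw [hA, mem_alive']; exact h2)
      exact le_antisymm (hx₀ j) (not_lt.mp h1)
  · have h2 : j ∉ A := by
      rw [hA, mem_alive', hj]
      exact lt_irrefl _
    simp only [x]
    rw [dif_neg h2]
  · rw [hsum]
    have h1 := hz3 (Sum.inl i) (Finset.mem_map.mpr ⟨i, Finset.mem_univ i, rfl⟩)
    have h2 : (4 : ℝ) * 20 = 80 := by norm_num
    rw [h2] at h1
    exact h1
  · rw [hsum]
    have h1 := hz2 (Sum.inr i) (Finset.mem_map.mpr ⟨i, Finset.mem_univ i, rfl⟩)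
    have h2 : |∑ j : A, a i j * (z j - x₀ j)| ≤ cst (2 * t) (b + 2) * 1 := h1
    rw [mul_one] at h2
    refine h2.trans ((cst_le_Ff ht2 (le_max_left _ _)).trans ?_)
    have h3 : Ff (dl (2 * t)) b ≤ Ef (dl (2 * t)) (Real.log N) := by
      rcases le_total (Lam (dl (2 * t))) (Real.log N) with h | h
      · rw [hb, max_eq_right h]
        have := Ff_le hd hlog hlog le_rfl (c := 1) (by linarith)
        linarith
      · rw [hb, max_eq_left h]
        exact (Ff_Lam_le hd).trans (Ef_ge_one hd hlog)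
    have h4 := h3.trans (Ef_two ht hlog)
    have h5 : Real.sqrt (2 * t) ≤ 3 / 2 * Real.sqrt t := by
      rw [Real.sqrt_mul (by norm_num)]
      apply mul_le_mul_of_nonneg_right _ (Real.sqrt_nonneg _)
      rw [Real.sqrt_le_left (by norm_num)]; norm_num
    have h6 := Ef_ge_one (dl_pos ht) hlog
    have hst := Real.sqrt_nonneg t
    calc 41200 * Real.sqrt (2 * t) * Ff (dl (2 * t)) b
        ≤ 41200 * (3 / 2 * Real.sqrt t) * (2 * Ef (dl t) (Real.log N)) := by
          apply mul_le_mul _ h4 (Ff_nonneg hd (by linarith)) (by positivity)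
          linarith
      _ = 123600 * Real.sqrt t * Ef (dl t) (Real.log N) := by ring

end Pool.Agent.L0h27.LP
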