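import Pool.Agent.L0h27.LP.Core

/-!
# The final statements: simultaneous signings, sums of the two balls, `ℓᵖ` balls
-/

set_option autoImplicit false

namespace Pool.Agent.L0h27.LP

open Finset Real Pool.Agent.N243 Pool.Agent.L0h27.Kom

open H167FK.Sys (alive)

theorem split_sum' {J : Type} [Fintype J] (c : J → ℝ) (x y z : J → ℝ) :
    ∑ j, c j * (z j - x j) = ∑ j, c j * (y j - x j) + ∑ j, c j * (z j - y j) := by
  rw [← Finset.sum_add_distrib]
  exact Finset.sum_congr rfl fun _ _ => by ring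

/-- **Simultaneous signings.** -/
theorem simul {I₁ I₂ J : Type} [Fintype I₁] [Fintype I₂] [Fintype J] (w : I₁ → J → ℝ)
    (u : I₂ → J → ℝ) (δ : ℝ) (h0 : 0 < δ) (h1 : δ ≤ 1) (hw : ∀ j, ∑ i, |w i j| ≤ 1)
    (uδ : ∀ i j, |u i j| ≤ δ) (col : ∀ j, ∑ i, u i j ^ 2 ≤ 1) (x₀ : J → ℝ)
    (hx₀ : ∀ j, |x₀ j| ≤ 1) (N : ℕ) (hN : (alive x₀ : Finset J).card ≤ N) :
    ∃ x : J → ℝ, (∀ j, |x j| = 1) ∧
      (∀ i, |∑ j, w i j * (x j - x₀ j)| ≤ 80) ∧
      (∀ i, |∑ j, u i j * (x j - x₀ j)| ≤ 123600 * Ef (dl (1 / δ ^ 2)) (Real.log N)) := by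
  have ht1 : 1 ≤ 1 / δ ^ 2 := by
    rw [le_div_iff₀ (by positivity)]; nlinarith
  obtain ⟨x, k1, -, k3, k4⟩ := core w (fun i j => u i j / δ) (1 / δ ^ 2) ht1 hw
    (fun i j => by
      rw [abs_div, abs_of_pos h0, div_le_one h0]
      exact uδ i j)
    (fun j => by
      have e : ∑ i, (u i j / δ) ^ 2 = (∑ i, u i j ^ 2) / δ ^ 2 := by
        rw [Finset.sum_div]
        exact Finset.sum_congr rfl fun i _ => by rw [div_pow]
      rw [e]
      exact div_le_div_of_nonneg_right (col j) (by positivity)) x₀ hx₀ N hN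
  refine ⟨x, k1, k3, fun i => ?_⟩
  have h2 := k4 i
  have e2 : Real.sqrt (1 / δ ^ 2) = 1 / δ := by
    rw [Real.sqrt_div (by norm_num), Real.sqrt_one, Real.sqrt_sq h0.le]
  rw [e2] at h2
  have e3 : |∑ j, u i j * (x j - x₀ j)| = δ * |∑ j, u i j / δ * (x j - x₀ j)| := by
    have : δ * |∑ j, u i j / δ * (x j - x₀ j)| = |δ * ∑ j, u i j / δ * (x j - x₀ j)| := by
      rw [abs_mul, abs_of_pos h0]
    rw [this, Finset.mul_sum]
    congr 1
    exact Finset.sum_congr rfl fun j _ => by field_simp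
  rw [e3]
  calc _ ≤ δ * (123600 * (1 / δ) * Ef (dl (1 / δ ^ 2)) (Real.log N)) :=
        mul_le_mul_of_nonneg_left h2 h0.le
    _ = _ := by field_simp

/-- Simultaneous signings: the number of fractional coordinates is first reduced. -/
theorem simul' {I₁ I₂ J : Type} [Fintype I₁] [Fintype I₂] [Fintype J] (w : I₁ → J → ℝ)
    (u : I₂ → J → ℝ) (δ : ℝ) (h0 : 0 < δ) (h1 : δ ≤ 1) (hw : ∀ j, ∑ i, |w i j| ≤ 1)
    (uδ : ∀ i j, |u i j| ≤ δ) (col : ∀ j, ∑ i, u i j ^ 2 ≤ 1) (x₀ : J → ℝ)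
    (hx₀ : ∀ j, |x₀ j| ≤ 1) :
    ∃ x : J → ℝ, (∀ j, |x j| = 1) ∧
      (∀ i, |∑ j, w i j * (x j - x₀ j)| ≤ 80) ∧
      (∀ i, |∑ j, u i j * (x j - x₀ j)| ≤ 123600 * Ef (dl (1 / δ ^ 2))
        (Real.log (min (Fintype.card I₁ + Fintype.card I₂) (Fintype.card J) : ℕ))) := by
  obtain ⟨y, hy1, hy2, hy3⟩ := reduce (I := I₁ ⊕ I₂) (Sum.elim w u) _ x₀ hx₀ le_rfl
  obtain ⟨x, k1, k2, k3⟩ := simul w u δ h0 h1 hw uδ col y hy1 _
    (le_min (hy3.trans (Fintype.card_sum).le) (Finset.card_le_univ _))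
  refine ⟨x, k1, fun i => ?_, fun i => ?_⟩
  · have h2 := hy2 (Sum.inl i)
    simp only [Sum.elim_inl] at h2
    rw [split_sum' (w i) x₀ y x, h2, zero_add]
    exact k2 i
  · have h2 := hy2 (Sum.inr i)
    simp only [Sum.elim_inr] at h2
    rw [split_sum' (u i) x₀ y x, h2, zero_add]
    exact k3 i

/-- **Sums of an `ℓ¹` part and an `ℓ²` part.** -/
theorem sums {I J : Type} [Fintype I] [Fintype J] (w u : I → J → ℝ) (α β δ : ℝ) (hα : 0 ≤ α)
    (hβ : 0 ≤ β) (h0 : 0 < δ) (h1 : δ ≤ 1) (hw : ∀ j, ∑ i, |w i j| ≤ α)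
    (uδ : ∀ i j, |u i j| ≤ β * δ) (col : ∀ j, ∑ i, u i j ^ 2 ≤ β ^ 2) (x₀ : J → ℝ)
    (hx₀ : ∀ j, |x₀ j| ≤ 1) :
    ∃ x : J → ℝ, (∀ j, |x j| = 1) ∧
      ∀ i, |∑ j, (w i j + u i j) * (x j - x₀ j)| ≤ 123600 * (α + β * Ef (dl (1 / δ ^ 2))
        (Real.log (min (Fintype.card I) (Fintype.card J) : ℕ))) := by
  have ht1 : 1 ≤ 1 / δ ^ 2 := by
    rw [le_div_iff₀ (by positivity)]; nlinarith
  obtain ⟨y, hy1, hy2, hy3⟩ := reduce (fun i j => w i j + u i j) _ x₀ hx₀ le_rfl
  have hwα : ∀ i j, w i j = α * (w i j / α) := by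
    intro i j
    rcases hα.eq_or_lt with h | h
    · have h2 : |w i j| ≤ 0 := by
        rw [h]
        exact (Finset.single_le_sum (f := fun i => |w i j|) (fun i _ => abs_nonneg _)
          (Finset.mem_univ i)).trans (hw j)
      rw [abs_nonpos_iff.mp h2, zero_div, mul_zero]
    · field_simp
  have huβ : ∀ i j, u i j = β * (u i j / β) := by
    intro i j
    rcases hβ.eq_or_lt with h | h
    · have h2 : |u i j| ≤ 0 := by
        have := uδ i j
        rwa [← h, zero_mul] at this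
      rw [abs_nonpos_iff.mp h2, zero_div, mul_zero]
    · field_simp
  obtain ⟨x, k1, k2, k3⟩ := simul (fun i j => w i j / α) (fun i j => u i j / β) δ h0 h1
    (fun j => by
      rcases hα.eq_or_lt with h | h
      · simp only [← h, div_zero, abs_zero, Finset.sum_const_zero]
        norm_num
      · simp only [abs_div, abs_of_pos h]
        rw [← Finset.sum_div, div_le_one h]
        exact hw j)
    (fun i j => by
      rcases hβ.eq_or_lt with h | h
      · rw [← h, div_zero, abs_zero]; exact h0.le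
      · rw [abs_div, abs_of_pos h, div_le_iff₀ h, mul_comm]
        exact uδ i j)
    (fun j => by
      rcases hβ.eq_or_lt with h | h
      · simp only [← h, div_zero]
        norm_num
      · simp only [div_pow]
        rw [← Finset.sum_div, div_le_one (by positivity)]
        exact col j) y hy1 _ (le_min hy3 (Finset.card_le_univ _))
  refine ⟨x, k1, fun i => ?_⟩
  rw [split_sum' (fun j => w i j + u i j) x₀ y x, hy2 i, zero_add]
  have e : ∑ j, (w i j + u i j) * (x j - y j) = α * ∑ j, w i j / α * (x j - y j) +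
      β * ∑ j, u i j / β * (x j - y j) := by
    rw [Finset.mul_sum, Finset.mul_sum, ← Finset.sum_add_distrib]
    refine Finset.sum_congr rfl fun j _ => ?_
    calc _ = w i j * (x j - y j) + u i j * (x j - y j) := by ring
      _ = α * (w i j / α) * (x j - y j) + β * (u i j / β) * (x j - y j) := by
          rw [← hwα, ← huβ]
      _ = _ := by ring
  rw [e]
  refine (abs_add_le _ _).trans ?_
  rw [abs_mul, abs_mul, abs_of_nonneg hα, abs_of_nonneg hβ]
  have h2 := mul_le_mul_of_nonneg_left (k2 i) hα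
  have h3 := mul_le_mul_of_nonneg_left (k3 i) hβ
  have hE := Ef_ge_one (dl_pos ht1) (Real.log_natCast_nonneg
    (min (Fintype.card I) (Fintype.card J)))
  nlinarith

/-- **Vectors in the unit ball of `ℓᵖ`.** -/
theorem lpball {I J : Type} [Fintype I] [Fintype J] (v : I → J → ℝ) (p : ℝ) (hp1 : 1 ≤ p)
    (hp2 : p ≤ 2) (hv : ∀ j, ∑ i, |v i j| ^ p ≤ 1) (x₀ : J → ℝ) (hx₀ : ∀ j, |x₀ j| ≤ 1) :
    ∃ x : J → ℝ, (∀ j, |x j| = 1) ∧
      ∀ i, |∑ j, v i j * (x j - x₀ j)| ≤ 247200 *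
        (1 + Real.log (min (Fintype.card I) (Fintype.card J) : ℕ)) ^ (1 / 2 - 1 / (2 * p)) := by
  classical
  set N := min (Fintype.card I) (Fintype.card J) with hN
  have hlog : 0 ≤ Real.log (N : ℕ) := Real.log_natCast_nonneg _
  set L : ℝ := 1 + Real.log (N : ℕ) with hL
  have hL1 : 1 ≤ L := by linarith
  have hL0 : 0 < L := by linarith
  have hp0 : 0 < p := by linarith
  set θ : ℝ := L ^ (-(1 / (2 * p))) with hθ
  have hθ0 : 0 < θ := Real.rpow_pos_of_pos hL0 _
  set α : ℝ := L ^ (1 / 2 - 1 / (2 * p)) with hα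
  set β : ℝ := L ^ (1 / 4 - 1 / (2 * p)) with hβ
  have hα0 : 0 < α := Real.rpow_pos_of_pos hL0 _
  have hβ0 : 0 < β := Real.rpow_pos_of_pos hL0 _
  have e1 : θ ^ (1 - p) = α := by
    rw [hθ, hα, ← Real.rpow_mul hL0.le]
    congr 1
    field_simp
    ring
  have e2 : θ ^ (2 - p) = β ^ 2 := by
    rw [hθ, hβ, ← Real.rpow_mul hL0.le, ← Real.rpow_natCast, ← Real.rpow_mul hL0.le]
    congr 1
    push_cast
    field_simp
    ring
  have e3 : β * L ^ (1 / 4 : ℝ) = α := by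
    rw [hβ, hα, ← Real.rpow_add hL0]
    congr 1
    ring
  have hbig : ∀ r : ℝ, θ < |r| → |r| ≤ |r| ^ p * α := by
    intro r hr
    have hr0 : 0 < |r| := hθ0.trans hr
    have h1 : |r| ^ (1 - p) ≤ θ ^ (1 - p) :=
      Real.rpow_le_rpow_of_nonpos hθ0 hr.le (by linarith)
    rw [e1] at h1
    calc |r| = |r| ^ p * |r| ^ (1 - p) := by
          rw [← Real.rpow_add hr0]; simp
      _ ≤ _ := mul_le_mul_of_nonneg_left h1 (Real.rpow_nonneg hr0.le _)
  have hsmall : ∀ r : ℝ, |r| ≤ θ → r ^ 2 ≤ |r| ^ p * β ^ 2 := by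
    intro r hr
    have h1 : |r| ^ (2 - p) ≤ θ ^ (2 - p) :=
      Real.rpow_le_rpow (abs_nonneg r) hr (by linarith)
    rw [e2] at h1
    rcases (abs_nonneg r).eq_or_lt with h | h
    · have : r = 0 := abs_eq_zero.mp h.symm
      rw [this]
      have : 0 ≤ |(0:ℝ)| ^ p := Real.rpow_nonneg (abs_nonneg _) _
      have h3 : 0 ≤ |(0:ℝ)| ^ p * β ^ 2 := by positivity
      simpa using h3
    · calc r ^ 2 = |r| ^ p * |r| ^ (2 - p) := by
            rw [← Real.rpow_add h, ← sq_abs, ← Real.rpow_natCast]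
            congr 1
            push_cast
            ring
        _ ≤ _ := mul_le_mul_of_nonneg_left h1 (Real.rpow_nonneg h.le _)
  have hcol : ∀ j, ∑ i, (if θ < |v i j| then 0 else v i j) ^ 2 ≤ β ^ 2 := by
    intro j
    calc ∑ i, (if θ < |v i j| then 0 else v i j) ^ 2 ≤ ∑ i, |v i j| ^ p * β ^ 2 := by
          refine Finset.sum_le_sum fun i _ => ?_
          split_ifs with h
          · have : 0 ≤ |v i j| ^ p := Real.rpow_nonneg (abs_nonneg _) _
            have h3 : 0 ≤ |v i j| ^ p * β ^ 2 := by positivity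
            simpa using h3
          · exact hsmall _ (not_lt.mp h)
      _ = (∑ i, |v i j| ^ p) * β ^ 2 := by rw [Finset.sum_mul]
      _ ≤ 1 * β ^ 2 := mul_le_mul_of_nonneg_right (hv j) (by positivity)
      _ = _ := one_mul _
  obtain ⟨x, k1, k2⟩ := sums (fun i j => if θ < |v i j| then v i j else 0)
    (fun i j => if θ < |v i j| then 0 else v i j) α β 1 hα0.le hβ0.le one_pos le_rfl
    (fun j => by
      calc ∑ i, |if θ < |v i j| then v i j else 0| ≤ ∑ i, |v i j| ^ p * α := by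
            refine Finset.sum_le_sum fun i _ => ?_
            split_ifs with h
            · exact hbig _ h
            · have : 0 ≤ |v i j| ^ p := Real.rpow_nonneg (abs_nonneg _) _
              rw [abs_zero]
              positivity
        _ = (∑ i, |v i j| ^ p) * α := by rw [Finset.sum_mul]
        _ ≤ 1 * α := mul_le_mul_of_nonneg_right (hv j) hα0.le
        _ = α := one_mul _)
    (fun i j => by
      rw [mul_one]
      refine abs_le_of_sq_le_sq ?_ hβ0.le
      exact (Finset.single_le_sum (f := fun i => (if θ < |v i j| then 0 else v i j) ^ 2)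
        (fun i _ => sq_nonneg _) (Finset.mem_univ i)).trans (hcol j))
    hcol x₀ hx₀
  refine ⟨x, k1, fun i => ?_⟩
  have h1 : ∑ j, v i j * (x j - x₀ j) = ∑ j, ((if θ < |v i j| then v i j else 0) +
      (if θ < |v i j| then 0 else v i j)) * (x j - x₀ j) := by
    refine Finset.sum_congr rfl fun j _ => ?_
    split_ifs <;> simp
  rw [h1]
  refine (k2 i).trans ?_
  have h2 : Ef (dl (1 / 1 ^ 2)) (Real.log (N : ℕ)) ≤ L ^ (1 / 4 : ℝ) := by
    unfold Ef
    exact min_le_left _ _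
  have h3 := mul_le_mul_of_nonneg_left h2 hβ0.le
  rw [e3] at h3
  linarith

end Pool.Agent.L0h27.LP
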